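import Mathlib
import Pool.Agent.MP_0de6ea_al.Asym

namespace Pool.Agent.Results.MP_0de6ea_al.Growth

open Filter Pool.Agent.MP_0de6ea_al

theorem result (d : ℕ) (hd : 2 ≤ d) (ε : ℝ) (hε : 0 < ε) :
    ∀ᶠ n : ℕ in atTop,
      Real.exp ((2 * d - 1 : ℝ) ^ ((1 / 2 - ε) * n)) ≤ gCount d n ∧
      gCount d n ≤ fCount d n ∧
      (fCount d n : ℝ) ≤ Real.exp ((2 * d - 1 : ℝ) ^ ((1 + ε) * n)) := by
  have hd' : (2 : ℝ) ≤ d := by exact_mod_cast hd
  filter_upwards [lower d hd (min ε 1) (lt_min hε one_pos) (min_le_right _ _), upper d hd ε hε]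
    with n h1 h2
  refine ⟨le_trans ?_ h1, gCount_le_fCount, h2⟩
  rw [Real.exp_le_exp]
  refine Real.rpow_le_rpow_of_exponent_le (by linarith) ?_
  exact mul_le_mul_of_nonneg_right (by linarith [min_le_left ε 1]) (Nat.cast_nonneg _)

end Pool.Agent.Results.MP_0de6ea_al.Growth
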