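import Pool.Agent.MP_0de6ea_al.RW.Fin

namespace Pool.Agent.Results.MP_0de6ea_al.Window

open Filter Pool.Agent.MP_0de6ea_al

theorem result (d : ℕ) (hd : 2 ≤ d) :
    ∀ᶠ n : ℕ in atTop,
      Real.exp ((2 * d - 1 : ℝ) ^ n / (n : ℝ) ^ 144) ≤ fCount d n ∧
      (fCount d n : ℝ) ≤ Real.exp ((2 * d - 1 : ℝ) ^ n * (n : ℝ) ^ 3) :=
  (RW.window_lower d hd).and (RW.window_upper d hd)

end Pool.Agent.Results.MP_0de6ea_al.Window
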